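import Mathlib
import Pool.Agent.U766.SN.GM

/-!
# Standard Gaussian vectors: moments, linear forms, the method of moments, Levy's theorem

Auxiliary file for MP_a28cf0_nt.JointMomentsAreLocal.
-/

set_option autoImplicit false

namespace Pool.Agent.U14.JM

open Filter Topology MeasureTheory Complex ProbabilityTheory
open scoped BoundedContinuousFunction RealInnerProductSpace

noncomputable section

variable {ι : Type} [Fintype ι]

/-- the standard Gaussian measure on `ℝ^ι` -/
def gam (ι : Type) [Fintype ι] : Measure (ι → ℝ) := Measure.pi fun _ => gaussianReal 0 1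

instance : IsProbabilityMeasure (gam ι) := by
  unfold gam
  infer_instance

/-- the moments of the standard Gaussian law -/
def Cn (n : ℕ) : ℝ := ∫ x : ℝ, x ^ n ∂(gaussianReal 0 1)

lemma int_abs (n : ℕ) : Integrable (fun x : ℝ => |x| ^ n) (gaussianReal 0 1) := by
  have h := (memLp_id_gaussianReal (μ := 0) (v := 1) (n : NNReal)).integrable_norm_pow'
  simpa using h

lemma int_pow (n : ℕ) : Integrable (fun x : ℝ => x ^ n) (gaussianReal 0 1) :=
  (int_abs n).mono (by fun_prop) (Eventually.of_forall fun x => by simp)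

lemma integral_prod (g : ι → ℝ → ℝ) : ∫ x, ∏ i, g i (x i) ∂(gam ι) = ∏ i, ∫ x, g i x ∂(gaussianReal 0 1) := by
  unfold gam
  exact integral_fintype_prod_eq_prod (𝕜 := ℝ) g

lemma integrable_prod (g : ι → ℝ → ℝ) (hg : ∀ i, Integrable (g i) (gaussianReal 0 1)) :
    Integrable (fun x : ι → ℝ => ∏ i, g i (x i)) (gam ι) := by
  unfold gam
  exact Integrable.fintype_prod_dep hg

lemma int_coord (g : ℝ → ℝ) (hg : Integrable g (gaussianReal 0 1)) (j : ι) :
    Integrable (fun x : ι → ℝ => g (x j)) (gam ι) := by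
  have := (measurePreserving_eval (fun _ : ι => gaussianReal 0 1) j).integrable_comp_of_integrable hg
  exact this

/-- the law of a linear form -/
lemma lin_law (c : ι → ℝ) (hc : ∑ i, c i ^ 2 = 1) :
    (gam ι).map (fun x => ∑ i, c i * x i) = gaussianReal 0 1 := by
  have hm : Measurable (fun x : ι → ℝ => ∑ i, c i * x i) := by fun_prop
  have : IsProbabilityMeasure ((gam ι).map (fun x => ∑ i, c i * x i)) :=
    Measure.isProbabilityMeasure_map hm.aemeasurable
  refine Measure.ext_of_charFun (funext fun s => ?_)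
  rw [charFun_apply_real, integral_map hm.aemeasurable (Continuous.aestronglyMeasurable (by fun_prop)),
    charFun_gaussianReal]
  have h1 := charFun_stdGaussian (E := EuclideanSpace ℝ ι) (WithLp.toLp 2 fun i => s * c i)
  rw [← map_pi_eq_stdGaussian, charFun_apply, integral_map (by fun_prop)
    (Continuous.aestronglyMeasurable (by fun_prop))] at h1
  unfold gam
  refine Eq.trans ?_ (h1.trans ?_)
  · refine integral_congr_ae (Eventually.of_forall fun x => ?_)
    simp only
    congr 2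
    rw [PiLp.inner_apply, ← ofReal_mul]
    congr 1
    rw [Finset.mul_sum]
    refine Finset.sum_congr rfl fun i _ => ?_
    simp
    ring
  · congr 1
    rw [← ofReal_pow, EuclideanSpace.real_norm_sq_eq]
    have : ∑ i, (s * c i) ^ 2 = s ^ 2 := by
      simp only [mul_pow]
      rw [← Finset.mul_sum, hc, mul_one]
    simp only [this]
    push_cast
    ring

lemma lin_int (c : ι → ℝ) (hc : ∑ i, c i ^ 2 = 1) (g : ℝ → ℝ) (hg : Continuous g) :
    ∫ x, g (∑ i, c i * x i) ∂(gam ι) = ∫ x, g x ∂(gaussianReal 0 1) := by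
  have hm : Measurable (fun x : ι → ℝ => ∑ i, c i * x i) := by fun_prop
  rw [← lin_law c hc, integral_map hm.aemeasurable hg.aestronglyMeasurable]

lemma sum_pow_eq (c x : ι → ℝ) (n : ℕ) [DecidableEq ι] : (∑ i, c i * x i) ^ n =
    ∑ k ∈ Finset.piAntidiag Finset.univ n, (Nat.multinomial Finset.univ k : ℝ) * (∏ i, c i ^ k i) * ∏ i, x i ^ k i := by
  rw [Finset.sum_pow_eq_sum_piAntidiag]
  refine Finset.sum_congr rfl fun k _ => ?_
  simp only [mul_pow]
  rw [Finset.prod_mul_distrib, mul_assoc]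

lemma lin_moment (c : ι → ℝ) (hc : ∑ i, c i ^ 2 = 1) (n : ℕ) [DecidableEq ι] :
    ∑ k ∈ Finset.piAntidiag Finset.univ n, (Nat.multinomial Finset.univ k : ℝ) * (∏ i, c i ^ k i) * ∏ i, Cn (k i) =
      Cn n := by
  have h := lin_int c hc (fun x => x ^ n) (by fun_prop)
  simp only [sum_pow_eq] at h
  rw [integral_finsetSum] at h
  · rw [← Cn] at h
    rw [← h]
    refine Finset.sum_congr rfl fun k _ => ?_
    rw [integral_const_mul, integral_prod (fun i y => y ^ k i)]
    rfl
  · intro k _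
    exact (integrable_prod (fun i y => y ^ k i) fun i => int_pow _).const_mul _

lemma Cn_eq_gm (n : ℕ) : Cn n = Pool.Agent.Y586.SW.gm n := by
  rw [← Pool.Agent.U766.SN.GM.mom n, Cn, integral_gaussianReal_eq_integral_smul (by norm_num), ← integral_const_mul]
  congr 1
  funext x
  rw [gaussianPDFReal, smul_eq_mul]
  simp only [NNReal.coe_one, mul_one, sub_zero, one_div]
  ring

/-- **Levy's theorem** on a finite measure space, Gaussian limit. -/
theorem levy {Ω : Type} [MeasurableSpace Ω] (ν : Measure Ω) [IsFiniteMeasure ν] (X : ℕ → Ω → ι → ℝ)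
    (hX : ∀ k, Measurable (X k)) (hZ : 0 < ν.real Set.univ)
    (h : ∀ c : ι → ℝ, Tendsto (fun k => ∫ z, cexp (I * ((∑ i, c i * X k z i : ℝ) : ℂ)) ∂ν) atTop
      (𝓝 ((ν.real Set.univ : ℂ) * cexp ((-(∑ i, c i ^ 2) / 2 : ℝ) : ℂ))))
    (g : (ι → ℝ) → ℝ) (hg : Continuous g) (hb : ∃ M, ∀ x, |g x| ≤ M) :
    Tendsto (fun k => ∫ z, g (X k z) ∂ν) atTop (𝓝 (ν.real Set.univ * ∫ x, g x ∂(gam ι))) := by
  set Z := ν.real Set.univ with hZd
  have hν : ν Set.univ ≠ 0 := by
    intro h0
    rw [hZd, Measure.real, h0] at hZ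
    simp at hZ
  have hm : ∀ k, Measurable fun z => (WithLp.toLp 2 (X k z) : EuclideanSpace ℝ ι) := fun k => by
    have := hX k
    fun_prop
  set μ : ℕ → Measure (EuclideanSpace ℝ ι) := fun k => (ν Set.univ)⁻¹ • ν.map (fun z => WithLp.toLp 2 (X k z)) with hμ
  have hp : ∀ k, IsProbabilityMeasure (μ k) := fun k => by
    refine ⟨?_⟩
    rw [hμ]
    simp only
    rw [Measure.smul_apply, Measure.map_apply (hm k) MeasurableSet.univ, Set.preimage_univ, smul_eq_mul]
    exact ENNReal.inv_mul_cancel hν (measure_ne_top _ _)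
  set P : ℕ → ProbabilityMeasure (EuclideanSpace ℝ ι) := fun k => ⟨μ k, hp k⟩ with hP
  set G : ProbabilityMeasure (EuclideanSpace ℝ ι) := ⟨stdGaussian (EuclideanSpace ℝ ι), inferInstance⟩ with hG
  have hZc : (Z : ℂ) ≠ 0 := by exact_mod_cast hZ.ne'
  have hint : ∀ k (F : EuclideanSpace ℝ ι → ℂ), Continuous F → ∫ x, F x ∂(μ k) =
      (Z : ℂ)⁻¹ * ∫ z, F (WithLp.toLp 2 (X k z)) ∂ν := by
    intro k F hF
    rw [hμ]
    simp only
    rw [integral_smul_measure, integral_map (hm k).aemeasurable hF.aestronglyMeasurable, ENNReal.toReal_inv,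
      Complex.real_smul]
    push_cast
    rfl
  have hlim : Tendsto P atTop (𝓝 G) := by
    refine ProbabilityMeasure.tendsto_iff_tendsto_charFun.2 fun s => ?_
    have e1 : charFun (G : Measure (EuclideanSpace ℝ ι)) s =
        (Z : ℂ)⁻¹ * (Z * cexp ((-(∑ i, s i ^ 2) / 2 : ℝ) : ℂ)) := by
      show charFun (stdGaussian (EuclideanSpace ℝ ι)) s = _
      rw [charFun_stdGaussian, ← mul_assoc, inv_mul_cancel₀ hZc, one_mul]
      congr 1
      rw [← ofReal_pow, EuclideanSpace.real_norm_sq_eq]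
      push_cast
      ring
    rw [e1]
    refine ((h s).const_mul (Z : ℂ)⁻¹).congr fun k => ?_
    have : charFun (P k : Measure (EuclideanSpace ℝ ι)) s = ∫ x, cexp (⟪x, s⟫ * I) ∂(μ k) := rfl
    rw [this, hint k _ (by fun_prop)]
    congr 1
    refine integral_congr_ae (Eventually.of_forall fun z => ?_)
    simp only
    congr 1
    rw [mul_comm]
    congr 2
  obtain ⟨M, hM⟩ := hb
  have hM' : ∀ x y : EuclideanSpace ℝ ι, dist (g (WithLp.ofLp x)) (g (WithLp.ofLp y)) ≤ 2 * M := fun x y => by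
    rw [Real.dist_eq]
    have := abs_sub (g (WithLp.ofLp x)) (g (WithLp.ofLp y))
    linarith [hM (WithLp.ofLp x), hM (WithLp.ofLp y)]
  have hgc : Continuous fun x : EuclideanSpace ℝ ι => g (WithLp.ofLp x) := hg.comp (by fun_prop)
  set gb : EuclideanSpace ℝ ι →ᵇ ℝ := ⟨⟨fun x => g (WithLp.ofLp x), hgc⟩, 2 * M, hM'⟩ with hgb
  have h1 := (ProbabilityMeasure.tendsto_iff_forall_integral_tendsto.1 hlim) gb
  have e1 : ∀ k, Z * ∫ x, gb x ∂(P k : Measure (EuclideanSpace ℝ ι)) = ∫ z, g (X k z) ∂ν := by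
    intro k
    show Z * ∫ x, g (WithLp.ofLp x) ∂(μ k) = _
    rw [hμ]
    simp only
    rw [integral_smul_measure, integral_map (hm k).aemeasurable hgc.aestronglyMeasurable, ENNReal.toReal_inv]
    have : (ν Set.univ).toReal = Z := rfl
    rw [this, smul_eq_mul, ← mul_assoc, mul_inv_cancel₀ hZ.ne', one_mul]
  have e2 : ∫ x, gb x ∂(G : Measure (EuclideanSpace ℝ ι)) = ∫ x, g x ∂(gam ι) := by
    show ∫ x, g (WithLp.ofLp x) ∂(stdGaussian (EuclideanSpace ℝ ι)) = _
    rw [← map_pi_eq_stdGaussian, integral_map (by fun_prop) hgc.aestronglyMeasurable]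
    rfl
  have h2 := h1.const_mul Z
  rw [e2] at h2
  exact h2.congr e1

end

end Pool.Agent.U14.JM
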